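import Pool.Agent.Q256.FX.StmD

/-!
Job COORD of project FX (helper256).
-/

set_option autoImplicit false
set_option maxHeartbeats 400000

open Height NumberField

namespace Pool.Agent.Q6.FX

open Pool.Agent.Q256.FX

theorem infinitePlace_le {K : Type*} [Field K] [NumberField K] (x : K)
    (v : InfinitePlace K) : v x ≤ mulHeight₁ x := by
  rw [NumberField.mulHeight₁_eq]
  have h1 : ∀ w : InfinitePlace K, (1 : ℝ) ≤ max (w x) 1 ^ w.mult := fun w =>
    one_le_pow₀ (le_max_right _ _)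
  have h2 : v x ≤ ∏ w : InfinitePlace K, max (w x) 1 ^ w.mult := by
    classical
    rw [← Finset.mul_prod_erase Finset.univ _ (Finset.mem_univ v)]
    have h3 : v x ≤ max (v x) 1 ^ v.mult := by
      calc v x ≤ max (v x) 1 := le_max_left _ _
        _ = max (v x) 1 ^ 1 := (pow_one _).symm
        _ ≤ max (v x) 1 ^ v.mult := pow_le_pow_right₀ (le_max_right _ _) v.mult_pos
    have h4 : (1 : ℝ) ≤ ∏ w ∈ Finset.univ.erase v, max (w x) 1 ^ w.mult :=
      Finset.one_le_prod fun w _ => h1 w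
    calc v x ≤ max (v x) 1 ^ v.mult := h3
      _ = max (v x) 1 ^ v.mult * 1 := (mul_one _).symm
      _ ≤ _ := mul_le_mul_of_nonneg_left h4 (by positivity)
  have h5 : (1 : ℝ) ≤ ∏ᶠ w : FinitePlace K, max (w x) 1 :=
    one_le_finprod fun _ => le_max_right _ _
  have h6 : (0 : ℝ) ≤ ∏ w : InfinitePlace K, max (w x) 1 ^ w.mult :=
    Finset.prod_nonneg fun w _ => zero_le_one.trans (h1 w)
  calc v x ≤ ∏ w : InfinitePlace K, max (w x) 1 ^ w.mult := h2
    _ = (∏ w : InfinitePlace K, max (w x) 1 ^ w.mult) * 1 := (mul_one _).symm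
    _ ≤ _ := mul_le_mul_of_nonneg_left h5 h6

theorem norm_emb_le {K : Type*} [Field K] [NumberField K] (x : K) (σ : K →ₐ[ℚ] ℂ) :
    ‖σ x‖ ≤ mulHeight₁ x := by
  have := infinitePlace_le x (InfinitePlace.mk (σ : K →+* ℂ))
  simpa using this

/-- the trace of an algebraic integer is an integer of bounded size -/
theorem trace_int {K : Type*} [Field K] [NumberField K] (x : K) (hx : IsIntegral ℤ x) (D B : ℕ)
    (hD : Module.finrank ℚ K ≤ D) (hB : ∀ σ : K →ₐ[ℚ] ℂ, ‖σ x‖ ≤ B) :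
    ∃ m : ℤ, Algebra.trace ℚ K x = m ∧ m.natAbs ≤ D * B := by
  have h1 : IsIntegral ℤ (Algebra.trace ℚ K x) := Algebra.isIntegral_trace hx
  obtain ⟨m, hm⟩ := IsIntegrallyClosed.isIntegral_iff.mp h1
  have hm' : Algebra.trace ℚ K x = m := by rw [← hm]; simp
  refine ⟨m, hm', ?_⟩
  have h2 := trace_eq_sum_embeddings (K := ℚ) (L := K) ℂ (x := x)
  rw [hm'] at h2
  have h3 : ‖((m : ℚ) : ℂ)‖ ≤ D * B := by
    have h4 : (algebraMap ℚ ℂ) (m : ℚ) = ((m : ℚ) : ℂ) := rfl
    rw [← h4, h2]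
    refine (norm_sum_le _ _).trans ((Finset.sum_le_sum fun σ _ => hB σ).trans ?_)
    rw [Finset.sum_const, nsmul_eq_mul, Finset.card_univ, AlgHom.card ℚ K ℂ]
    gcongr
  have h5 : ‖((m : ℚ) : ℂ)‖ = (m.natAbs : ℝ) := by
    rw [Rat.cast_intCast, Complex.norm_intCast, Nat.cast_natAbs, Int.cast_abs]
  rw [h5] at h3
  exact_mod_cast h3

/-- integers matrices: size of determinants -/
theorem det_natAbs_le {r : ℕ} (A : Matrix (Fin r) (Fin r) ℤ) (B : ℕ)
    (hB : ∀ i j, (A i j).natAbs ≤ B) : A.det.natAbs ≤ r.factorial * B ^ r := by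
  have h := Matrix.det_le (A := A) (abv := AbsoluteValue.abs) (x := (B : ℤ)) (fun i j => by
    rw [AbsoluteValue.abs_apply, Int.abs_eq_natAbs]
    exact_mod_cast hB i j)
  rw [AbsoluteValue.abs_apply, Int.abs_eq_natAbs, Fintype.card_fin, nsmul_eq_mul] at h
  exact_mod_cast h

theorem pow_indep {K : Type*} [Field K] [NumberField K] {θ : K}
    (hθ : IntermediateField.adjoin ℚ {θ} = ⊤) (v : Fin (Module.finrank ℚ K) → ℚ)
    (h : ∑ l, (v l : K) * θ ^ (l : ℕ) = 0) : v = 0 := by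
  have hdeg : (minpoly ℚ θ).natDegree = Module.finrank ℚ K :=
    (Field.primitive_element_iff_minpoly_natDegree_eq ℚ θ).mp hθ
  have hli : LinearIndependent ℚ (fun i : Fin (Module.finrank ℚ K) => θ ^ (i : ℕ)) := by
    rw [← hdeg]
    exact linearIndependent_pow θ
  funext l
  refine Fintype.linearIndependent_iff.mp hli v ?_ l
  rw [← h]
  exact Finset.sum_congr rfl fun i _ => Rat.smul_def _ _

/-- the integers with the Cramer system -/
theorem cramer_int {r : ℕ} (MZ : Matrix (Fin r) (Fin r) ℤ) (tZ : Fin r → ℤ) (w : Fin r → ℚ)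
    (h : ∀ i, ∑ j, (MZ i j : ℚ) * w j = tZ i) (l : Fin r) :
    (MZ.det : ℚ) * w l = ((MZ.updateCol l tZ).det : ℤ) := by
  have h1 : (MZ.map (Int.cast : ℤ → ℚ)).mulVec w = fun i => (tZ i : ℚ) := by
    funext i
    exact h i
  have h2 : (MZ.map (Int.cast : ℤ → ℚ)).adjugate.mulVec ((MZ.map (Int.cast : ℤ → ℚ)).mulVec w) =
      (MZ.map (Int.cast : ℤ → ℚ)).det • w := by
    rw [Matrix.mulVec_mulVec, Matrix.adjugate_mul, Matrix.smul_mulVec, Matrix.one_mulVec]
  rw [h1, ← Matrix.cramer_eq_adjugate_mulVec] at h2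
  have h3 := congrFun h2 l
  rw [Matrix.cramer_apply, Pi.smul_apply, smul_eq_mul] at h3
  have h4 : (MZ.map (Int.cast : ℤ → ℚ)).det = (MZ.det : ℚ) := by
    have := (Int.castRingHom ℚ).map_det MZ
    rw [RingHom.mapMatrix_apply] at this
    exact this.symm
  have h5 : ((MZ.map (Int.cast : ℤ → ℚ)).updateCol l fun i => (tZ i : ℚ)).det =
      ((MZ.updateCol l tZ).det : ℚ) := by
    have := (Int.castRingHom ℚ).map_det (MZ.updateCol l tZ)
    rw [RingHom.mapMatrix_apply] at this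
    rw [eq_intCast] at this
    rw [this]
    congr 1
    ext i j
    rw [Matrix.map_apply, Matrix.updateCol_apply, Matrix.updateCol_apply]
    split_ifs <;> simp
  rw [h4, h5] at h3
  exact h3.symm

theorem num_bound (D r H M : ℕ) (hr : r ≤ D) (hH : 2 ≤ H) (hM : M ≤ D * H ^ (4 * D + 2)) :
    r.factorial * M ^ r ≤ H ^ (D * D + (5 * D + 2) * D) := by
  have h1 : D ≤ H ^ D := (Nat.lt_two_pow_self.le).trans (Nat.pow_le_pow_left hH D)
  have h2 : M ≤ H ^ (5 * D + 2) := by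
    refine hM.trans ((Nat.mul_le_mul_right _ h1).trans (le_of_eq ?_))
    rw [← pow_add]
    congr 1
    ring
  have h3 : r.factorial ≤ H ^ (D * D) := by
    refine (Nat.factorial_le hr).trans ((Nat.factorial_le_pow D).trans ?_)
    rw [pow_mul]
    exact Nat.pow_le_pow_left h1 D
  have h4 : M ^ r ≤ H ^ ((5 * D + 2) * D) := by
    refine (Nat.pow_le_pow_left h2 r).trans ?_
    rw [pow_mul]
    exact Nat.pow_le_pow_right (by positivity) hr
  rw [pow_add]
  exact Nat.mul_le_mul h3 h4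

theorem coord : S_coord := by
  intro D
  refine ⟨D * D + (5 * D + 2) * D + D + 1, fun K _ _ hr θ hθ H hH hθH => ?_⟩
  refine ⟨fun v hv => pow_indep hθ v hv, fun c hcH => ?_⟩
  have hr0 : 0 < Module.finrank ℚ K := Module.finrank_pos
  obtain ⟨a, ha0, haH, hai⟩ := exists_nat_le_mulHeight₁ θ
  obtain ⟨b, hb0, hbH, hbi⟩ := exists_nat_le_mulHeight₁ c
  have haH' : a ≤ H := by exact_mod_cast haH.trans hθH
  have hbH' : b ≤ H := by exact_mod_cast hbH.trans hcH
  have haK : (a : K) ≠ 0 := by exact_mod_cast ha0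
  have hbK : (b : K) ≠ 0 := by exact_mod_cast hb0
  have hH1 : (1 : ℝ) ≤ H := by exact_mod_cast (by omega : 1 ≤ H)
  have hσθ : ∀ σ : K →ₐ[ℚ] ℂ, ‖σ ((a : K) * θ)‖ ≤ (H : ℝ) ^ 2 := by
    intro σ
    rw [map_mul, map_natCast, norm_mul, Complex.norm_natCast, sq]
    exact mul_le_mul (by exact_mod_cast haH') ((norm_emb_le θ σ).trans hθH) (norm_nonneg _)
      (by positivity)
  have hσc : ∀ σ : K →ₐ[ℚ] ℂ, ‖σ ((b : K) * c)‖ ≤ (H : ℝ) ^ 2 := by
    intro σ
    rw [map_mul, map_natCast, norm_mul, Complex.norm_natCast, sq]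
    exact mul_le_mul (by exact_mod_cast hbH') ((norm_emb_le c σ).trans hcH) (norm_nonneg _)
      (by positivity)
  -- the basis
  have hli : LinearIndependent ℚ
      (fun i : Fin (Module.finrank ℚ K) => ((a : K) * θ) ^ (i : ℕ)) := by
    rw [Fintype.linearIndependent_iff]
    intro g hg
    have h1 := pow_indep hθ (fun l => g l * (a : ℚ) ^ (l : ℕ)) (by
      rw [← hg]
      refine Finset.sum_congr rfl fun i _ => ?_
      rw [Rat.smul_def]
      push_cast
      rw [mul_pow]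
      ring)
    intro i
    have h2 := congrFun h1 i
    have h3 : ((a : ℚ) ^ (i : ℕ)) ≠ 0 := pow_ne_zero _ (by exact_mod_cast ha0)
    exact (mul_eq_zero.mp h2).resolve_right h3
  have : Nonempty (Fin (Module.finrank ℚ K)) := ⟨⟨0, hr0⟩⟩
  let B' := basisOfLinearIndependentOfCardEqFinrank hli (by simp)
  have hB' : ∀ i, B' i = ((a : K) * θ) ^ (i : ℕ) := fun i =>
    congrFun (coe_basisOfLinearIndependentOfCardEqFinrank hli (by simp)) i
  -- traces
  have hint : ∀ i j : Fin (Module.finrank ℚ K), ∃ m : ℤ,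
      Algebra.trace ℚ K (B' i * B' j) = m ∧ m.natAbs ≤ D * H ^ (4 * D + 2) := by
    intro i j
    have h1 : B' i * B' j = ((a : K) * θ) ^ ((i : ℕ) + (j : ℕ)) := by
      rw [hB', hB', pow_add]
    rw [h1]
    refine trace_int _ (hai.pow _) D _ hr fun σ => ?_
    rw [map_pow, norm_pow]
    have h2 : (i : ℕ) + (j : ℕ) ≤ 2 * D := by
      have := i.2
      have := j.2
      omega
    push_cast
    calc ‖σ ((a : K) * θ)‖ ^ ((i : ℕ) + (j : ℕ)) ≤ ((H : ℝ) ^ 2) ^ ((i : ℕ) + (j : ℕ)) :=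
          pow_le_pow_left₀ (norm_nonneg _) (hσθ σ) _
      _ = (H : ℝ) ^ (2 * ((i : ℕ) + (j : ℕ))) := by rw [← pow_mul]
      _ ≤ (H : ℝ) ^ (4 * D + 2) := pow_le_pow_right₀ hH1 (by omega)
  choose MZ hMZ hMZb using hint
  have hint2 : ∀ i : Fin (Module.finrank ℚ K), ∃ m : ℤ,
      Algebra.trace ℚ K (B' i * ((b : K) * c)) = m ∧ m.natAbs ≤ D * H ^ (4 * D + 2) := by
    intro i
    rw [hB']
    refine trace_int _ ((hai.pow _).mul hbi) D _ hr fun σ => ?_
    rw [map_mul, map_pow, norm_mul, norm_pow]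
    have h2 : (i : ℕ) ≤ D := by
      have := i.2
      omega
    push_cast
    calc ‖σ ((a : K) * θ)‖ ^ (i : ℕ) * ‖σ ((b : K) * c)‖ ≤ ((H : ℝ) ^ 2) ^ (i : ℕ) * (H : ℝ) ^ 2 :=
          mul_le_mul (pow_le_pow_left₀ (norm_nonneg _) (hσθ σ) _) (hσc σ) (norm_nonneg _)
            (by positivity)
      _ = (H : ℝ) ^ (2 * (i : ℕ) + 2) := by rw [← pow_mul, ← pow_add]
      _ ≤ (H : ℝ) ^ (4 * D + 2) := pow_le_pow_right₀ hH1 (by omega)
  choose tZ htZ htZb using hint2
  -- the coordinates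
  let w := B'.repr ((b : K) * c)
  have hw : ∑ j, w j • B' j = (b : K) * c := B'.sum_repr _
  have hsys : ∀ i, ∑ j, ((MZ i j : ℤ) : ℚ) * w j = tZ i := by
    intro i
    rw [← htZ i, ← hw, Finset.mul_sum, map_sum]
    refine Finset.sum_congr rfl fun j _ => ?_
    rw [mul_smul_comm, map_smul, smul_eq_mul, ← hMZ i j, mul_comm]
  have hcr := cramer_int (Matrix.of MZ) tZ w hsys
  have hΔ : (Matrix.of MZ).det ≠ 0 := by
    intro h0
    have h1 := Algebra.discr_not_zero_of_basis ℚ B'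
    apply h1
    rw [Algebra.discr_def]
    have h2 : Algebra.traceMatrix ℚ B' = (Matrix.of MZ).map (Int.cast : ℤ → ℚ) := by
      ext i j
      rw [Algebra.traceMatrix_apply, Algebra.traceForm_apply, Matrix.map_apply, Matrix.of_apply,
        hMZ]
    rw [h2]
    have h3 := (Int.castRingHom ℚ).map_det (Matrix.of MZ)
    rw [RingHom.mapMatrix_apply, h0, map_zero] at h3
    exact h3.symm
  set Δ : ℤ := (Matrix.of MZ).det with hΔd
  have hΔQ : (Δ : ℚ) ≠ 0 := by exact_mod_cast hΔ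
  have hΔK : (Δ : K) ≠ 0 := by exact_mod_cast hΔ
  let nn : Fin (Module.finrank ℚ K) → ℤ := fun l => ((Matrix.of MZ).updateCol l tZ).det
  have hnn : ∀ l, w l = (nn l : ℚ) / Δ := by
    intro l
    rw [eq_div_iff hΔQ, mul_comm]
    exact hcr l
  have hNb : ∀ l, (nn l).natAbs ≤ H ^ (D * D + (5 * D + 2) * D) := by
    intro l
    refine (det_natAbs_le _ (D * H ^ (4 * D + 2)) fun i j => ?_).trans
      (num_bound D _ H _ hr hH le_rfl)
    rw [Matrix.updateCol_apply]
    split_ifs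
    · exact htZb i
    · exact hMZb i j
  have hΔb : Δ.natAbs ≤ H ^ (D * D + (5 * D + 2) * D) :=
    (det_natAbs_le _ (D * H ^ (4 * D + 2)) fun i j => hMZb i j).trans
      (num_bound D _ H _ hr hH le_rfl)
  refine ⟨fun l => ((nn l * (a : ℤ) ^ (l : ℕ) : ℤ) : ℚ) / ((Δ * (b : ℤ) : ℤ) : ℚ), ?_, fun l => ?_⟩
  · have h1 : (b : K) * c = ∑ l, ((nn l : K) / Δ) * ((a : K) * θ) ^ (l : ℕ) := by
      rw [← hw]
      refine Finset.sum_congr rfl fun l _ => ?_
      rw [Rat.smul_def, hnn, hB']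
      push_cast
      rfl
    have h2 : c = (b : K)⁻¹ * ((b : K) * c) := by rw [inv_mul_cancel_left₀ hbK]
    rw [h2, h1, Finset.mul_sum]
    refine Finset.sum_congr rfl fun l _ => ?_
    push_cast
    rw [mul_pow]
    field_simp
  · refine (hq_divInt_le _ _ (mul_ne_zero hΔ (by exact_mod_cast hb0))).trans (max_le ?_ ?_)
    · rw [Int.natAbs_mul, Int.natAbs_pow, Int.natAbs_natCast]
      have h1 : a ^ (l : ℕ) ≤ H ^ D := by
        refine (Nat.pow_le_pow_left haH' _).trans (Nat.pow_le_pow_right (by omega) ?_)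
        have := l.2
        omega
      refine (Nat.mul_le_mul (hNb l) h1).trans ?_
      rw [← pow_add]
      exact Nat.pow_le_pow_right (by omega) (by omega)
    · rw [Int.natAbs_mul, Int.natAbs_natCast]
      refine (Nat.mul_le_mul hΔb hbH').trans ?_
      rw [← pow_succ]
      exact Nat.pow_le_pow_right (by omega) (by omega)

end Pool.Agent.Q6.FX
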